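import Pool.Agent.Helper81.TF.Cas
import Pool.Agent.Helper27.TF.Defs
import Pool.Agent.Helper3.PF.LPrime
import Pool.Agent.Helper81.PF.C2

/-!
Project TF (MP_b8862a_ag): the trace identity of a simple Lie algebra in an irreducible self-dual module.
-/

set_option linter.unusedSectionVars false

open Module LieModule LieAlgebra LieAlgebra.IsKilling AddMonoidAlgebra MTP.MF PF PF.W PF.L

namespace TF.L

open PF.CC

variable {K : Type*} [Field K] [CharZero K] [IsAlgClosed K]
  {L : Type*} [LieRing L] [LieAlgebra K L] [FiniteDimensional K L] [IsKilling K L]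
  {H : LieSubalgebra K L} [H.IsCartanSubalgebra]
  {V : Type*} [AddCommGroup V] [Module K V] [FiniteDimensional K V]
  [LieRingModule L V] [LieModule K L V] {I : Type*} [Fintype I] {ω : LinearMap.BilinForm K V}

theorem wt_dual {ν : Dual K H} {h : H.root → ℤ} (hν : ∀ α : H.root, ν (coroot α.1) = (h α : K)) :
    Wt (rootSystem H) h := by
  intro α β
  have h1 : ((h ((rootSystem H).reflectionPerm α β) : ℤ) : K) =
      ((h β - PF.CC.rt (rootSystem H) α β * h α : ℤ) : K) := by
    push_cast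
    rw [← hν, ← hν, ← hν, cast_rt]
    have h2 : (coroot ((rootSystem H).reflectionPerm α β).1 : H) =
        (rootSystem H).coroot ((rootSystem H).reflectionPerm α β) := rfl
    rw [h2, (rootSystem H).coroot_reflectionPerm, (rootSystem H).coreflection_apply_coroot,
      map_sub, map_smul, smul_eq_mul]
    rfl
  exact_mod_cast h1

theorem root_spec (α β : H.root) : (rootSystem H).root α (coroot β.1) = (PF.CC.rt (rootSystem H) α β : K) :=
  rt_spec α β

theorem rt_ne {α β : H.root} [(rootSystem H).IsCrystallographic]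
    (h : ∑ j, PF.CC.rt (rootSystem H) α j * PF.CC.rt (rootSystem H) β j ≠ 0) : PF.CC.rt (rootSystem H) α β ≠ 0 := by
  intro h0
  have h1 := two_sum (rootSystem H) (wt_rt (rootSystem H) α) β
  rw [h0, zero_mul] at h1
  exact h (by omega)

theorem sn_const (B : WB (V := V) H I) [Nonempty H.root] [(rootSystem H).IsIrreducible]
    {Q : Dual K H →ₗ[K] Dual K H →ₗ[K] K} (hQs : ∀ x y, Q x y = Q y x)
    (hQ : ∀ (α : H.root) (a : I → ℤ), (∀ i, B.w i (coroot α.1) = (a i : K)) → 0 < ∑ i, a i * a i ∧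
        ∀ μ, 2 * μ (coroot α.1) = ((∑ i, a i * a i : ℤ) : K) * Q μ ((rootSystem H).root α)) :
    ∃ d : ℤ, 0 < d ∧ ∀ α : H.root, (∑ i, wt B i α * wt B i α) *
      (∑ j, PF.CC.rt (rootSystem H) α j * PF.CC.rt (rootSystem H) α j) = d := by
  classical
  obtain ⟨α0⟩ := ‹Nonempty H.root›
  have hS : ∀ α : H.root, 0 < ∑ i, wt B i α * wt B i α := fun α => (hQ α (fun i => wt B i α) fun i => wt_spec B i α).1
  have hQ2 : ∀ α μ, 2 * μ (coroot α.1) = ((∑ i, wt B i α * wt B i α : ℤ) : K) * Q μ ((rootSystem H).root α) :=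
    fun α => (hQ α (fun i => wt B i α) fun i => wt_spec B i α).2
  have hstep : ∀ α β : H.root, PF.CC.rt (rootSystem H) α β ≠ 0 → (∑ i, wt B i α * wt B i α) *
      (∑ j, PF.CC.rt (rootSystem H) α j * PF.CC.rt (rootSystem H) α j) = (∑ i, wt B i β * wt B i β) *
      (∑ j, PF.CC.rt (rootSystem H) β j * PF.CC.rt (rootSystem H) β j) := by
    intro α β hne
    have h1 := hQ2 β ((rootSystem H).root α)
    have h2 := hQ2 α ((rootSystem H).root β)
    rw [hQs] at h2
    rw [root_spec] at h1 h2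
    have h3 : (∑ i, wt B i α * wt B i α) * PF.CC.rt (rootSystem H) α β =
        (∑ i, wt B i β * wt B i β) * PF.CC.rt (rootSystem H) β α := by
      have h4 : (((∑ i, wt B i α * wt B i α) * PF.CC.rt (rootSystem H) α β : ℤ) : K) =
          (((∑ i, wt B i β * wt B i β) * PF.CC.rt (rootSystem H) β α : ℤ) : K) := by
        rw [Int.cast_mul, Int.cast_mul]
        have h5 : (2 : K) * (((∑ i, wt B i α * wt B i α : ℤ) : K) * (PF.CC.rt (rootSystem H) α β : K) -
          ((∑ i, wt B i β * wt B i β : ℤ) : K) * (PF.CC.rt (rootSystem H) β α : K)) = 0 := by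
          linear_combination ((∑ i, wt B i α * wt B i α : ℤ) : K) * h1 - ((∑ i, wt B i β * wt B i β : ℤ) : K) * h2
        exact sub_eq_zero.1 ((mul_eq_zero.1 h5).resolve_left two_ne_zero)
      exact_mod_cast h4
    have h4 := two_sum (rootSystem H) (wt_rt (rootSystem H) α) β
    have h5 := two_sum (rootSystem H) (wt_rt (rootSystem H) β) α
    have h6 : ∑ j, PF.CC.rt (rootSystem H) α j * PF.CC.rt (rootSystem H) β j =
        ∑ j, PF.CC.rt (rootSystem H) β j * PF.CC.rt (rootSystem H) α j := Finset.sum_congr rfl fun j _ => mul_comm _ _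
    rw [h6, h5] at h4
    refine mul_left_cancel₀ hne ?_
    linear_combination (∑ j, PF.CC.rt (rootSystem H) α j * PF.CC.rt (rootSystem H) α j) * h3 +
      (∑ i, wt B i β * wt B i β) * h4
  obtain ⟨d, hd⟩ : ∃ d : ℤ, d = (∑ i, wt B i α0 * wt B i α0) *
      (∑ j, PF.CC.rt (rootSystem H) α0 j * PF.CC.rt (rootSystem H) α0 j) := ⟨_, rfl⟩
  refine ⟨d, ?_, ?_⟩
  · rw [hd]
    exact mul_pos (hS α0) (sum_pos (rootSystem H) α0)
  · have hne : Nonempty H.root := ⟨α0⟩
    obtain ⟨S, hSdef⟩ : ∃ S : Finset (EuclideanSpace ℝ H.root), S = (Ph (rootSystem H)).filter (fun v => ∃ α : H.root,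
      vec (PF.CC.rt (rootSystem H) α) = v ∧ (∑ i, wt B i α * wt B i α) *
      (∑ j, PF.CC.rt (rootSystem H) α j * PF.CC.rt (rootSystem H) α j) = d) := ⟨_, rfl⟩
    have h1 : S = Ph (rootSystem H) := by
      refine (rs (rootSystem H)).irr S ?_ ?_ ?_
      · rw [hSdef]
        exact Finset.filter_subset _ _
      · refine ⟨vec (PF.CC.rt (rootSystem H) α0), ?_⟩
        rw [hSdef, Finset.mem_filter]
        exact ⟨(mem_Ph _).2 ⟨α0, rfl⟩, α0, rfl, hd.symm⟩
      · intro a ha c hc hcS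
        rw [hSdef, Finset.mem_filter] at ha hcS
        obtain ⟨-, α, rfl, hα⟩ := ha
        obtain ⟨β, rfl⟩ := (mem_Ph _).1 hc
        by_contra hin
        rw [inner_vec] at hin
        have h2 : ∑ j, PF.CC.rt (rootSystem H) α j * PF.CC.rt (rootSystem H) β j ≠ 0 := fun h => hin (by rw [h]; simp)
        refine hcS ⟨hc, β, rfl, ?_⟩
        rw [← hstep α β (rt_ne h2), hα]
    intro α
    have h2 : vec (PF.CC.rt (rootSystem H) α) ∈ S := by
      rw [h1]
      exact (mem_Ph _).2 ⟨α, rfl⟩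
    rw [hSdef, Finset.mem_filter] at h2
    obtain ⟨-, β, hβ, hβ'⟩ := h2
    have h3 : β = α := rt_inj (rootSystem H) (vec_inj hβ)
    rw [← h3]
    exact hβ'

theorem lat {d : ℤ} {Q : Dual K H →ₗ[K] Dual K H →ₗ[K] K}
    (hQ : ∀ (α : H.root) (ν : Dual K H) (h : H.root → ℤ), (∀ β : H.root, ν (coroot β.1) = (h β : K)) →
      (d : K) * Q ν ((rootSystem H).root α) = 4 * ((∑ j, h j * PF.CC.rt (rootSystem H) α j : ℤ) : K))
    {y : H} {y' : EuclideanSpace ℝ H.root}
    (hy : ∀ α : H.root, ∃ k : ℤ, (rootSystem H).root α y = (k : K) ∧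
      (inner ℝ (vec (PF.CC.rt (rootSystem H) α)) y' : ℝ) = (k : ℝ))
    {v : EuclideanSpace ℝ H.root} (hv : v ∈ AddSubgroup.closure ((Ph (rootSystem H) : Finset (EuclideanSpace ℝ H.root)) :
        Set (EuclideanSpace ℝ H.root))) :
    ∃ (μ : Dual K H) (g : H.root → ℤ) (k : ℤ), v = vec g ∧ (∀ α : H.root, μ (coroot α.1) = (g α : K)) ∧
      (∀ (ν : Dual K H) (h : H.root → ℤ), (∀ β : H.root, ν (coroot β.1) = (h β : K)) →
        (d : K) * Q ν μ = 4 * ((∑ j, h j * g j : ℤ) : K)) ∧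
      μ y = (k : K) ∧ (inner ℝ v y' : ℝ) = (k : ℝ) := by
  induction hv using AddSubgroup.closure_induction with
  | mem x hx =>
    obtain ⟨α, rfl⟩ := (mem_Ph _).1 (Finset.mem_coe.1 hx)
    obtain ⟨k, hk1, hk2⟩ := hy α
    exact ⟨(rootSystem H).root α, PF.CC.rt (rootSystem H) α, k, rfl, root_spec α, hQ α, hk1, hk2⟩
  | zero =>
    refine ⟨0, 0, 0, vec_zero.symm, fun α => by simp, fun ν h _ => by simp, by simp, by simp⟩
  | add a c _ _ ha hc =>
    obtain ⟨μ, g, k, h1, h2, h3, h4, h5⟩ := ha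
    obtain ⟨μ', g', k', h1', h2', h3', h4', h5'⟩ := hc
    refine ⟨μ + μ', g + g', k + k', ?_, ?_, ?_, ?_, ?_⟩
    · rw [vec_add, h1, h1']
    · intro α
      rw [LinearMap.add_apply, h2, h2', Pi.add_apply, Int.cast_add]
    · intro ν h hν
      rw [map_add, mul_add, h3 ν h hν, h3' ν h hν]
      simp only [Pi.add_apply, mul_add, Finset.sum_add_distrib, Int.cast_add]
    · rw [LinearMap.add_apply, h4, h4', Int.cast_add]
    · rw [inner_add_left, h5, h5', Int.cast_add]
  | neg a _ ha =>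
    obtain ⟨μ, g, k, h1, h2, h3, h4, h5⟩ := ha
    refine ⟨-μ, -g, -k, ?_, ?_, ?_, ?_, ?_⟩
    · rw [vec_neg, h1]
    · intro α
      rw [LinearMap.neg_apply, h2, Pi.neg_apply, Int.cast_neg]
    · intro ν h hν
      rw [map_neg, mul_neg, h3 ν h hν]
      simp only [Pi.neg_apply, mul_neg, Finset.sum_neg_distrib, Int.cast_neg]
    · rw [LinearMap.neg_apply, h4, Int.cast_neg]
    · rw [inner_neg_left, h5, Int.cast_neg]

/-- The weights. -/
theorem lat_w (B : WB (V := V) H I) (hsat : Sat (Ph (rootSystem H)) (Xw B)) {d : ℤ} {Q : Dual K H →ₗ[K] Dual K H →ₗ[K] K}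
    (hQ : ∀ (α : H.root) (ν : Dual K H) (h : H.root → ℤ), (∀ β : H.root, ν (coroot β.1) = (h β : K)) →
      (d : K) * Q ν ((rootSystem H).root α) = 4 * ((∑ j, h j * PF.CC.rt (rootSystem H) α j : ℤ) : K))
    {y : H} {y' : EuclideanSpace ℝ H.root}
    (hy : ∀ α : H.root, ∃ k : ℤ, (rootSystem H).root α y = (k : K) ∧
      (inner ℝ (vec (PF.CC.rt (rootSystem H) α)) y' : ℝ) = (k : ℝ)) (i : I) :
    (∀ (ν : Dual K H) (h : H.root → ℤ), (∀ β : H.root, ν (coroot β.1) = (h β : K)) →
        (d : K) * Q ν (B.w i) = 4 * ((∑ j, h j * wt B i j : ℤ) : K)) ∧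
    (∀ a : ℤ, 2 * B.w i y = (a : K) → (inner ℝ (vec (wt B i)) y' : ℝ) = (a : ℝ) / 2) ∧
    vec (wt B i) ∈ Submodule.span ℝ ((Ph (rootSystem H) : Finset (EuclideanSpace ℝ H.root)) :
        Set (EuclideanSpace ℝ H.root)) := by
  have hx : vec (wt B i) ∈ Xw B := (mem_Xw B).2 ⟨i, rfl⟩
  have h1 := hsat.coset _ hx _ (hsat.neg _ hx)
  obtain ⟨μ, g, k, h2, h3, h4, h5, h6⟩ := lat hQ hy h1
  have h7 : g = wt B i + wt B i := by
    apply vec_inj
    rw [← h2, vec_add, sub_neg_eq_add]
  have h8 : μ = B.w i + B.w i := by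
    apply dual_ext
    intro α
    rw [h3, h7, LinearMap.add_apply, wt_spec, Pi.add_apply, Int.cast_add]
  refine ⟨?_, ?_, ?_⟩
  · intro ν h hν
    have h9 := h4 ν h hν
    rw [h8, h7, map_add] at h9
    have h10 : ∑ j, h j * (wt B i + wt B i) j = 2 * ∑ j, h j * wt B i j := by
      rw [Finset.mul_sum]
      refine Finset.sum_congr rfl fun j _ => ?_
      rw [Pi.add_apply]
      ring
    rw [h10, Int.cast_mul] at h9
    have h11 : (2 : K) * ((d : K) * Q ν (B.w i) - 4 * ((∑ j, h j * wt B i j : ℤ) : K)) = 0 := by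
      push_cast at h9 ⊢
      linear_combination h9
    exact sub_eq_zero.1 ((mul_eq_zero.1 h11).resolve_left two_ne_zero)
  · intro a ha
    rw [h8, LinearMap.add_apply, ← two_mul, ha] at h5
    have h9 : a = k := by exact_mod_cast h5
    rw [sub_neg_eq_add, inner_add_left] at h6
    rw [h9]
    linarith
  · have h9 : vec (wt B i) = (1 / 2 : ℝ) • (vec (wt B i) - -vec (wt B i)) := by
      rw [sub_neg_eq_add, ← two_smul ℝ, smul_smul]
      norm_num
    rw [h9]
    refine Submodule.smul_mem _ _ ?_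
    have h10 : AddSubgroup.closure ((Ph (rootSystem H) : Finset (EuclideanSpace ℝ H.root)) :
        Set (EuclideanSpace ℝ H.root)) ≤ (Submodule.span ℝ ((Ph (rootSystem H) : Finset (EuclideanSpace ℝ H.root)) :
        Set (EuclideanSpace ℝ H.root))).toAddSubgroup := by
      rw [AddSubgroup.closure_le]
      exact Submodule.subset_span
    exact h10 h1

theorem rt_neg (α j : H.root) : PF.CC.rt (rootSystem H) ((rootSystem H).reflectionPerm α α) j = - PF.CC.rt (rootSystem H) α j := by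
  rw [rt_refl_left, rt_self]
  ring

/-- the pairing of a dominant weight with the positive roots -/
theorem dom_pos (b : (rootSystem H).Base) {ν : Dual K H} {h : H.root → ℤ}
    (hν : ∀ β : H.root, ν (coroot β.1) = (h β : K)) (hd : ∀ j ∈ b.support, 0 ≤ h j) {α : H.root} (hα : α ∈ pos b) :
    0 ≤ h α := by
  have hα' : b.IsPos α := by simpa [pos] using hα
  obtain ⟨f, hf, -⟩ := coroot_eq_sum b hα'
  have h1 : ((h α : ℤ) : K) = ((∑ j ∈ b.support, (f j : ℤ) * h j : ℤ) : K) := by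
    have h2 : (rootSystem H).coroot α = coroot α.1 := rfl
    rw [← hν α, ← h2, hf, map_sum]
    push_cast
    refine Finset.sum_congr rfl fun j _ => ?_
    rw [map_smul, smul_eq_mul]
    congr 1
    exact hν j
  have h2 : h α = ∑ j ∈ b.support, (f j : ℤ) * h j := by exact_mod_cast h1
  rw [h2]
  exact Finset.sum_nonneg fun j hj => mul_nonneg (Int.natCast_nonneg _) (hd j hj)

theorem norm_le (B : WB (V := V) H I) (hsat : Sat (Ph (rootSystem H)) (Xw B)) (b : (rootSystem H).Base) {t : I}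
    (hb : ∀ i, Below b (B.w t) (B.w i)) (hdom : ∀ j ∈ b.support, 0 ≤ wt B t j)
    {x : EuclideanSpace ℝ H.root} (hx : x ∈ Xw B) :
    (inner ℝ x x : ℝ) ≤ inner ℝ (vec (wt B t)) (vec (wt B t)) := by
  classical
  obtain ⟨R, hR⟩ : ∃ R : EuclideanSpace ℝ H.root, R = ∑ α ∈ pos b, vec (PF.CC.rt (rootSystem H) α) := ⟨_, rfl⟩
  have hin : ∀ (f : H.root → ℤ), Wt (rootSystem H) f → ∀ j : H.root,
      (inner ℝ (vec (PF.CC.rt (rootSystem H) j)) (vec f) : ℝ) =
      (f j : ℝ) * ((∑ k, PF.CC.rt (rootSystem H) j k * PF.CC.rt (rootSystem H) j k : ℤ) : ℝ) / 2 := by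
    intro f hf j
    have h1 := two_sum (rootSystem H) hf j
    rw [real_inner_comm, inner_vec]
    have h2 : (2 : ℝ) * ((∑ k, f k * PF.CC.rt (rootSystem H) j k : ℤ) : ℝ) =
      (f j : ℝ) * ((∑ k, PF.CC.rt (rootSystem H) j k * PF.CC.rt (rootSystem H) j k : ℤ) : ℝ) := by exact_mod_cast h1
    linarith
  have hN : ∀ j : H.root, (0 : ℝ) < ((∑ k, PF.CC.rt (rootSystem H) j k * PF.CC.rt (rootSystem H) j k : ℤ) : ℝ) :=
    fun j => by exact_mod_cast sum_pos (rootSystem H) j
  have hRj : ∀ j ∈ b.support, (0 : ℝ) < inner ℝ (vec (PF.CC.rt (rootSystem H) j)) R := by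
    intro j hj
    rw [hR, inner_sum]
    have h1 : ∀ α : H.root, (inner ℝ (vec (PF.CC.rt (rootSystem H) j)) (vec (PF.CC.rt (rootSystem H) α)) : ℝ) =
        (PF.CC.rt (rootSystem H) α j : ℝ) * (((∑ k, PF.CC.rt (rootSystem H) j k * PF.CC.rt (rootSystem H) j k : ℤ) : ℝ) / 2) := by
      intro α
      rw [hin _ (wt_rt (rootSystem H) α) j, mul_div_assoc]
    rw [Finset.sum_congr rfl fun α _ => h1 α, ← Finset.sum_mul]
    have h2 : ∑ α ∈ pos b, PF.CC.rt (rootSystem H) α j = 2 := by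
      have h3 : (rootSystem H).toLinearMap (rho b) ((rootSystem H).coroot j) = 1 := rho_coroot b hj
      have h4 : ((∑ α ∈ pos b, PF.CC.rt (rootSystem H) α j : ℤ) : K) = 2 := by
        push_cast
        have h5 : (rootSystem H).toLinearMap (rho b) ((rootSystem H).coroot j) =
            2⁻¹ * ∑ α ∈ pos b, (PF.CC.rt (rootSystem H) α j : K) := by
          unfold rho
          rw [map_smul, LinearMap.smul_apply, smul_eq_mul, map_sum, LinearMap.sum_apply]
          congr 1
          refine Finset.sum_congr rfl fun α _ => ?_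
          rw [cast_rt]
          rfl
        rw [h5] at h3
        have h6 : (2 : K) * (2⁻¹ * ∑ α ∈ pos b, (PF.CC.rt (rootSystem H) α j : K)) = 2 * 1 := by rw [h3]
        rwa [← mul_assoc, mul_inv_cancel₀ (two_ne_zero), one_mul, mul_one] at h6
      exact_mod_cast h4
    have h3 : ∑ α ∈ pos b, (PF.CC.rt (rootSystem H) α j : ℝ) = 2 := by exact_mod_cast h2
    rw [h3]
    have := hN j
    linarith
  obtain ⟨x1, hx1, hmax1⟩ := Finset.exists_max_image (Xw B) (fun x => (inner ℝ x x : ℝ)) hsat.nonempty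
  obtain ⟨x2, hx2, hmax2⟩ := Finset.exists_max_image ((Xw B).filter fun x => (inner ℝ x x : ℝ) = inner ℝ x1 x1)
    (fun x => (inner ℝ x R : ℝ)) ⟨x1, Finset.mem_filter.2 ⟨hx1, rfl⟩⟩
  rw [Finset.mem_filter] at hx2
  refine (hmax1 x hx).trans ?_
  rw [← hx2.2]
  obtain ⟨i, hi⟩ := (mem_Xw B).1 hx2.1
  have hdom2 : ∀ j ∈ b.support, 0 ≤ wt B i j := by
    intro j hj
    by_contra hneg
    push Not at hneg
    obtain ⟨k, hk⟩ : ∃ k : ℕ, -(wt B i j) = (k : ℤ) := Int.eq_ofNat_of_zero_le (by omega)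
    have hja : vec (PF.CC.rt (rootSystem H) ((rootSystem H).reflectionPerm j j)) = - vec (PF.CC.rt (rootSystem H) j) := by
      rw [← vec_neg]
      congr 1
      funext l
      rw [rt_neg]
      rfl
    have hmem : -vec (PF.CC.rt (rootSystem H) j) ∈ Ph (rootSystem H) := (mem_Ph _).2 ⟨_, hja⟩
    have hco : co (-vec (PF.CC.rt (rootSystem H) j)) x2 = k := by
      have h1 := co_vec (rootSystem H) (wt_wt B i) j
      unfold co at h1 ⊢
      rw [inner_neg_right, inner_neg_neg, ← hi, mul_neg, neg_div, h1]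
      have h2 : ((-(wt B i j) : ℤ) : ℝ) = ((k : ℤ) : ℝ) := by rw [hk]
      push_cast at h2
      exact h2
    have h1 := hsat.str _ hmem x2 hx2.1 k hco.ge
    rw [smul_neg, sub_neg_eq_add] at h1
    have h2 : (inner ℝ (vec (PF.CC.rt (rootSystem H) j)) x2 : ℝ) = -(k : ℝ) *
        (inner ℝ (vec (PF.CC.rt (rootSystem H) j)) (vec (PF.CC.rt (rootSystem H) j))) / 2 := by
      rw [← hi, hin _ (wt_wt B i) j, inner_vec]
      have h2 : ((-(wt B i j) : ℤ) : ℝ) = ((k : ℤ) : ℝ) := by rw [hk]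
      push_cast at h2 ⊢
      rw [← h2]
      ring
    have h3 : (inner ℝ (x2 + (k : ℝ) • vec (PF.CC.rt (rootSystem H) j)) (x2 + (k : ℝ) • vec (PF.CC.rt (rootSystem H) j)) : ℝ) =
        inner ℝ x1 x1 := by
      rw [inner_add_left, inner_add_right, inner_add_right, inner_smul_left, inner_smul_right, inner_smul_left,
        inner_smul_right, real_inner_comm (vec (PF.CC.rt (rootSystem H) j)) x2, h2, ← hx2.2]
      simp only [conj_trivial]
      ring
    have h4 := hmax2 _ (Finset.mem_filter.2 ⟨h1, h3⟩)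
    rw [inner_add_left, inner_smul_left] at h4
    simp only [conj_trivial] at h4
    have h5 := hRj j hj
    have h6 : (0 : ℝ) < k := by
      have : 0 < k := by omega
      exact_mod_cast this
    nlinarith [mul_pos h6 h5]
  obtain ⟨κ, hκ⟩ := hb i
  have hsub : vec (wt B t) - x2 = ∑ j ∈ b.support, (κ j : ℝ) • vec (PF.CC.rt (rootSystem H) j) := by
    rw [← hi]
    ext α
    have h1 : ((wt B i α : ℤ) : K) = ((wt B t α - ∑ j ∈ b.support, (κ j : ℤ) * PF.CC.rt (rootSystem H) j α : ℤ) : K) := by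
      rw [← wt_spec, hκ, LinearMap.sub_apply, wt_spec, LinearMap.sum_apply, Int.cast_sub, Int.cast_sum]
      congr 1
      refine Finset.sum_congr rfl fun j _ => ?_
      rw [LinearMap.smul_apply, smul_eq_mul, root_spec]
      push_cast
      rfl
    have h2 : wt B i α = wt B t α - ∑ j ∈ b.support, (κ j : ℤ) * PF.CC.rt (rootSystem H) j α := by exact_mod_cast h1
    simp only [PiLp.sub_apply, vec_apply, WithLp.ofLp_sum, WithLp.ofLp_smul, Finset.sum_apply, Pi.smul_apply, smul_eq_mul]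
    rw [h2]
    push_cast
    simp
  have hpos : ∀ (i : I), (∀ j ∈ b.support, 0 ≤ wt B i j) → (0 : ℝ) ≤ inner ℝ (vec (wt B t) - x2) (vec (wt B i)) := by
    intro i hd
    rw [hsub, sum_inner]
    refine Finset.sum_nonneg fun j hj => ?_
    rw [inner_smul_left, hin _ (wt_wt B i) j]
    simp only [conj_trivial]
    have h1 : (0 : ℝ) ≤ (wt B i j : ℝ) := by exact_mod_cast hd j hj
    have h2 := hN j
    positivity
  have h1 := hpos t hdom
  have h2 := hpos i hdom2
  rw [hi] at h2
  rw [inner_sub_left] at h1 h2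
  rw [real_inner_comm (vec (wt B t)) x2] at h1
  linarith


/-- the Casimir constant as an integer -/
theorem cas_eq (b : (rootSystem H).Base) [Nonempty H.root] [(rootSystem H).IsIrreducible] (B : WB (V := V) H I) {t : I}
    (hdom : ∀ j ∈ b.support, 0 ≤ wt B t j) :
    cas (Ph (rootSystem H)) (vec (wt B t)) = ((∑ j, wt B t j * wt B t j + ∑ α ∈ pos b, ∑ j, wt B t j *
      PF.CC.rt (rootSystem H) α j : ℤ) : ℝ) := by
  classical
  have hp : ∀ α ∈ pos b, 0 ≤ ∑ j, wt B t j * PF.CC.rt (rootSystem H) α j := by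
    intro α hα
    have h1 := two_sum (rootSystem H) (wt_wt B t) α
    have h2 := dom_pos b (fun β => wt_spec B t β) hdom hα
    have h3 := sum_pos (rootSystem H) α
    have h4 := mul_nonneg h2 h3.le
    omega
  have h1 : ∑ a ∈ Ph (rootSystem H), |(inner ℝ (vec (wt B t)) a : ℝ)| =
      ∑ α : H.root, |((∑ j, wt B t j * PF.CC.rt (rootSystem H) α j : ℤ) : ℝ)| := by
    unfold Ph
    rw [Finset.sum_image fun a _ b _ hab => rt_inj (rootSystem H) (vec_inj hab)]
    refine Finset.sum_congr rfl fun α _ => ?_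
    rw [inner_vec]
  have h2 := sum_univ_eq_two_pos b (fun α => |((∑ j, wt B t j * PF.CC.rt (rootSystem H) α j : ℤ) : ℚ)|) (by
    intro α
    have h3 : ∑ j, wt B t j * PF.CC.rt (rootSystem H) ((rootSystem H).reflectionPerm α α) j =
        - ∑ j, wt B t j * PF.CC.rt (rootSystem H) α j := by
      rw [← Finset.sum_neg_distrib]
      refine Finset.sum_congr rfl fun j _ => ?_
      rw [rt_neg]
      ring
    simp only [h3]
    push_cast
    rw [abs_neg])
  have h3 : ∑ α ∈ pos b, |((∑ j, wt B t j * PF.CC.rt (rootSystem H) α j : ℤ) : ℚ)| =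
      ((∑ α ∈ pos b, ∑ j, wt B t j * PF.CC.rt (rootSystem H) α j : ℤ) : ℚ) := by
    rw [Int.cast_sum]
    refine Finset.sum_congr rfl fun α hα => ?_
    rw [abs_of_nonneg]
    exact_mod_cast hp α hα
  rw [h3] at h2
  have h4 : ∑ α : H.root, |((∑ j, wt B t j * PF.CC.rt (rootSystem H) α j : ℤ) : ℝ)| =
      2 * ((∑ α ∈ pos b, ∑ j, wt B t j * PF.CC.rt (rootSystem H) α j : ℤ) : ℝ) := by
    have h5 : ∑ α : H.root, |∑ j, wt B t j * PF.CC.rt (rootSystem H) α j| =
        2 * ∑ α ∈ pos b, ∑ j, wt B t j * PF.CC.rt (rootSystem H) α j := by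
      exact_mod_cast h2
    exact_mod_cast h5
  unfold cas
  rw [h1, h4, inner_vec, Int.cast_add]
  ring

end TF.L

namespace TF

open PF.CC TF.L

variable {K : Type*} [Field K] [CharZero K] [IsAlgClosed K]
  {L : Type*} [LieRing L] [LieAlgebra K L] [FiniteDimensional K L] [IsKilling K L]
  {H : LieSubalgebra K L} [H.IsCartanSubalgebra]
  {V : Type*} [AddCommGroup V] [Module K V] [FiniteDimensional K V]
  [LieRingModule L V] [LieModule K L V] {I : Type*} [Fintype I] {ω : LinearMap.BilinForm K V}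

theorem exists_in (B : WB (V := V) H I) [Nonempty I] [Nonempty H.root] [(rootSystem H).IsIrreducible]
    (hirr : ∀ W : Submodule K V, (∀ x : L, ∀ u ∈ W, ⁅x, u⁆ ∈ W) → W = ⊥ ∨ W = ⊤)
    (hfaith : ∀ x : L, (∀ u : V, ⁅x, u⁆ = 0) → x = 0)
    (hnd : ω.Nondegenerate) (hsk : ∀ (x : L) (u v : V), ω ⁅x, u⁆ v = - ω u ⁅x, v⁆)
    {y : H} (hy : y ≠ 0) (a : I → ℤ) (ha : ∀ i, 2 * B.w i y = (a i : K)) (ha2 : ∀ i j, (2 : ℤ) ∣ a i - a j)
    {T : ℕ} (hT : (T : ℤ) = ∑ i, a i ^ 2) :
    ∃ (b : (rootSystem H).Base) (t : I) (y' : EuclideanSpace ℝ H.root),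
      In (PF.CC.Ph (rootSystem H)) (PF.CC.Xw B) (Fintype.card I) T (PF.CC.vec (PF.CC.wt B t)) y' ∧ 0 < T ∧
      finrank ℝ (Submodule.span ℝ (PF.CC.Ph (rootSystem H) : Set (EuclideanSpace ℝ H.root))) = finrank K H ∧
      ∀ i, Below b (B.w t) (B.w i) := by
  classical
  obtain ⟨b⟩ : Nonempty (rootSystem H).Base := (rootSystem H).nonempty_base
  obtain ⟨Q, c, hQs, hQ, hQ3, hQ4, hQ5, hQ6⟩ := exists_cas2 B hirr hfaith b
  obtain ⟨t, htb, htone, htdom⟩ := exists_top B hirr b
  obtain ⟨d, hd0, hd⟩ := sn_const B hQs hQ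
  have hsat := sat B hirr hnd hsk
  have hdR : (0 : ℝ) < d := by exact_mod_cast hd0
  have hdK : (d : K) ≠ 0 := by exact_mod_cast hd0.ne'
  have hS : ∀ α : H.root, 0 < ∑ i, wt B i α * wt B i α := fun α => (hQ α (fun i => wt B i α) fun i => wt_spec B i α).1
  have hQ2 : ∀ α μ, 2 * μ (coroot α.1) = ((∑ i, wt B i α * wt B i α : ℤ) : K) * Q μ ((rootSystem H).root α) :=
    fun α => (hQ α (fun i => wt B i α) fun i => wt_spec B i α).2
  have hQr : ∀ (α : H.root) (ν : Dual K H) (h : H.root → ℤ), (∀ β : H.root, ν (coroot β.1) = (h β : K)) →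
      (d : K) * Q ν ((rootSystem H).root α) = 4 * ((∑ j, h j * PF.CC.rt (rootSystem H) α j : ℤ) : K) := by
    intro α ν h hν
    have h1 := hQ2 α ν
    rw [hν] at h1
    have h2 := two_sum (rootSystem H) (wt_dual hν) α
    have h3 : (2 : K) * ((∑ j, h j * PF.CC.rt (rootSystem H) α j : ℤ) : K) =
        (h α : K) * ((∑ j, PF.CC.rt (rootSystem H) α j * PF.CC.rt (rootSystem H) α j : ℤ) : K) := by exact_mod_cast h2
    rw [← hd α, Int.cast_mul]
    linear_combination (-((∑ j, PF.CC.rt (rootSystem H) α j * PF.CC.rt (rootSystem H) α j : ℤ) : K)) * h1 - 2 * h3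
  -- the grading element
  have hαy : ∀ α : H.root, ∃ k : ℤ, α.1 y = (k : K) := by
    intro α
    obtain ⟨i, j, hij⟩ := B.root_apply hfaith α
    obtain ⟨k, hk⟩ := ha2 j i
    refine ⟨k, ?_⟩
    have h1 := hij y
    have h2 := ha i
    have h3 := ha j
    have h4 : ((a j - a i : ℤ) : K) = ((2 * k : ℤ) : K) := by rw [hk]
    push_cast at h4
    have h5 : (2 : K) * (α.1 y - k) = 0 := by linear_combination (-2) * h1 + h3 - h2 + h4
    exact sub_eq_zero.1 ((mul_eq_zero.1 h5).resolve_left two_ne_zero)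
  obtain ⟨y', hy'⟩ : ∃ y' : EuclideanSpace ℝ H.root, y' = (2 / (d : ℝ)) • ∑ i, (a i : ℝ) • vec (wt B i) := ⟨_, rfl⟩
  have hyr : ∀ α : H.root, ∃ k : ℤ, (rootSystem H).root α y = (k : K) ∧
      (inner ℝ (vec (PF.CC.rt (rootSystem H) α)) y' : ℝ) = (k : ℝ) := by
    intro α
    obtain ⟨k, hk⟩ := hαy α
    refine ⟨k, hk, ?_⟩
    have h1 := hQ3 α (fun i => wt B i α) (fun i => wt_spec B i α) y
    rw [hk] at h1
    have h2 : (∑ i, a i * wt B i α : ℤ) = (∑ i, wt B i α * wt B i α) * k := by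
      have h3 : ((∑ i, a i * wt B i α : ℤ) : K) = (((∑ i, wt B i α * wt B i α) * k : ℤ) : K) := by
        rw [Int.cast_mul, ← h1, Int.cast_sum, Finset.mul_sum]
        refine Finset.sum_congr rfl fun i _ => ?_
        rw [Int.cast_mul, ← ha i]
        ring
      exact_mod_cast h3
    have h3 : ∀ i, (inner ℝ (vec (PF.CC.rt (rootSystem H) α)) (vec (wt B i)) : ℝ) = (wt B i α : ℝ) *
        ((∑ k, PF.CC.rt (rootSystem H) α k * PF.CC.rt (rootSystem H) α k : ℤ) : ℝ) / 2 := by
      intro i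
      have h4 := two_sum (rootSystem H) (wt_wt B i) α
      rw [real_inner_comm, inner_vec]
      have h5 : (2 : ℝ) * ((∑ k, wt B i k * PF.CC.rt (rootSystem H) α k : ℤ) : ℝ) =
        (wt B i α : ℝ) * ((∑ k, PF.CC.rt (rootSystem H) α k * PF.CC.rt (rootSystem H) α k : ℤ) : ℝ) := by exact_mod_cast h4
      linarith
    rw [hy', inner_smul_right, inner_sum]
    have h4 : ∑ i, (inner ℝ (vec (PF.CC.rt (rootSystem H) α)) ((a i : ℝ) • vec (wt B i)) : ℝ) =
        ((∑ i, a i * wt B i α : ℤ) : ℝ) *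
          (((∑ k, PF.CC.rt (rootSystem H) α k * PF.CC.rt (rootSystem H) α k : ℤ) : ℝ) / 2) := by
      rw [Int.cast_sum, Finset.sum_mul]
      refine Finset.sum_congr rfl fun i _ => ?_
      rw [inner_smul_right, h3, Int.cast_mul]
      ring
    rw [h4, h2]
    have h5 : (((∑ i, wt B i α * wt B i α : ℤ) : ℝ)) *
      ((∑ j, PF.CC.rt (rootSystem H) α j * PF.CC.rt (rootSystem H) α j : ℤ) : ℝ) = (d : ℝ) := by exact_mod_cast hd α
    rw [Int.cast_mul, ← h5]
    have h6 : (0 : ℝ) < ((∑ i, wt B i α * wt B i α : ℤ) : ℝ) := by exact_mod_cast hS α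
    have h7 : (0 : ℝ) < ((∑ j, PF.CC.rt (rootSystem H) α j * PF.CC.rt (rootSystem H) α j : ℤ) : ℝ) := by
      exact_mod_cast sum_pos (rootSystem H) α
    field_simp
  have hw := fun i => lat_w B hsat hQr hyr i
  have hdy : (d : ℝ) * inner ℝ y' y' = T := by
    have h1 : (inner ℝ y' y' : ℝ) = (2 / (d : ℝ)) * ∑ i, (a i : ℝ) * ((a i : ℝ) / 2) := by
      conv_lhs => rw [hy']
      rw [inner_smul_left, sum_inner]
      simp only [conj_trivial]
      congr 1
      refine Finset.sum_congr rfl fun i _ => ?_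
      rw [inner_smul_left, ← hy', (hw i).2.1 (a i) (ha i)]
      simp only [conj_trivial]
    have h2 : (T : ℝ) = ∑ i, (a i : ℝ) ^ 2 := by exact_mod_cast hT
    rw [h1, h2, Finset.mul_sum, Finset.mul_sum]
    refine Finset.sum_congr rfl fun i _ => ?_
    field_simp
  have hdom : ∀ j ∈ b.support, 0 ≤ wt B t j := by
    intro j hj
    obtain ⟨k, hk⟩ := htdom j hj
    have h1 : ((wt B t j : ℤ) : K) = ((k : ℤ) : K) := by
      rw [← wt_spec, hk]
      push_cast
      rfl
    have h2 : wt B t j = k := by exact_mod_cast h1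
    omega
  have hcardPh : (Ph (rootSystem H)).card = Fintype.card H.root := by
    unfold Ph
    rw [Finset.card_image_of_injective _ fun α β h => rt_inj (rootSystem H) (vec_inj h), Finset.card_univ]
  -- no weight above t
  have hnoup : ∀ α ∈ pos b, ∀ i, B.w i ≠ B.w t + (rootSystem H).root α := by
    intro α hα i h1
    obtain ⟨κ, hκ⟩ := htb i
    rw [h1] at hκ
    have hα' : b.IsPos α := by simpa [pos] using hα
    have h2 : (rootSystem H).root α = ∑ j ∈ b.support, (-(κ j : ℤ)) • (rootSystem H).root j := by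
      have h3 : (rootSystem H).root α = - ∑ j ∈ b.support, (κ j : K) • (rootSystem H).root j := by
        have h4 : B.w t + (rootSystem H).root α - B.w t = B.w t - ∑ j ∈ b.support, (κ j : K) • (rootSystem H).root j - B.w t := by
          rw [hκ]
        rw [add_sub_cancel_left] at h4
        rw [h4]
        abel
      rw [h3, ← Finset.sum_neg_distrib]
      refine Finset.sum_congr rfl fun j _ => ?_
      rw [neg_smul, natCast_zsmul, Nat.cast_smul_eq_nsmul]
    have h3 := b.height_eq_sum h2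
    rw [RootPairing.Base.isPos_iff, h3] at hα'
    have h4 : ∑ j ∈ b.support, -(κ j : ℤ) ≤ 0 := Finset.sum_nonpos fun j _ => by simp
    omega
  have hc := hQ6 t hnoup
  -- the integral form of c
  obtain ⟨m, hm⟩ : ∃ m : ℤ, m = ∑ j, wt B t j * wt B t j + ∑ α ∈ pos b, ∑ j, wt B t j * PF.CC.rt (rootSystem H) α j :=
    ⟨_, rfl⟩
  have hdc : (d : K) * c = 4 * (m : K) := by
    rw [hc, mul_add, (hw t).1 (B.w t) (wt B t) (fun β => wt_spec B t β), Finset.mul_sum,
      Finset.sum_congr rfl fun α _ => hQr α (B.w t) (wt B t) (fun β => wt_spec B t β), ← Finset.mul_sum, hm]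
    push_cast
    ring
  have hfin : 4 * m * (Fintype.card I : ℤ) = d * (finrank K L : ℤ) := by
    have h1 : ((4 * m * (Fintype.card I : ℤ) : ℤ) : K) = ((d * (finrank K L : ℤ) : ℤ) : K) := by
      push_cast
      rw [← hQ5]
      linear_combination -(Fintype.card I : K) * hdc
    exact_mod_cast h1
  have hdim : Fintype.card H.root + finrank K H = finrank K L := card_root_eq H
  -- the rank
  have hrank : finrank ℝ (Submodule.span ℝ (Ph (rootSystem H) : Set (EuclideanSpace ℝ H.root))) = finrank K H := by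
    obtain ⟨U, hU⟩ : ∃ U : Submodule ℝ (EuclideanSpace ℝ H.root),
      U = Submodule.span ℝ (Ph (rootSystem H) : Set (EuclideanSpace ℝ H.root)) := ⟨_, rfl⟩
    rw [← hU]
    have hwU : ∀ i, vec (wt B i) ∈ U := fun i => by rw [hU]; exact (hw i).2.2
    have h1 : ∀ u ∈ U, ∑ i, (inner ℝ (vec (wt B i)) u : ℝ) • vec (wt B i) = ((d : ℝ) / 4) • u := by
      intro u hu
      rw [hU] at hu
      induction hu using Submodule.span_induction with
      | mem u hu =>
        obtain ⟨α, rfl⟩ := (mem_Ph _).1 (Finset.mem_coe.1 hu)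
        ext β
        have h2 := hQ3 α (fun i => wt B i α) (fun i => wt_spec B i α) (coroot β.1)
        rw [rt_spec] at h2
        have h3 : 2 * ∑ i, wt B i β * wt B i α = (∑ i, wt B i α * wt B i α) * PF.CC.rt (rootSystem H) α β := by
          have h4 : ((2 * ∑ i, wt B i β * wt B i α : ℤ) : K) =
              (((∑ i, wt B i α * wt B i α) * PF.CC.rt (rootSystem H) α β : ℤ) : K) := by
            rw [Int.cast_mul _ (PF.CC.rt (rootSystem H) α β), ← h2]
            push_cast
            congr 1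
            refine Finset.sum_congr rfl fun i _ => ?_
            rw [wt_spec]
          exact_mod_cast h4
        have h4 : ∀ i, (inner ℝ (vec (wt B i)) (vec (PF.CC.rt (rootSystem H) α)) : ℝ) = (wt B i α : ℝ) *
            ((∑ k, PF.CC.rt (rootSystem H) α k * PF.CC.rt (rootSystem H) α k : ℤ) : ℝ) / 2 := by
          intro i
          have h4 := two_sum (rootSystem H) (wt_wt B i) α
          rw [inner_vec]
          have h5 : (2 : ℝ) * ((∑ k, wt B i k * PF.CC.rt (rootSystem H) α k : ℤ) : ℝ) =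
            (wt B i α : ℝ) * ((∑ k, PF.CC.rt (rootSystem H) α k * PF.CC.rt (rootSystem H) α k : ℤ) : ℝ) := by
            exact_mod_cast h4
          linarith
        simp only [WithLp.ofLp_sum, WithLp.ofLp_smul, Finset.sum_apply, Pi.smul_apply, smul_eq_mul, vec_apply]
        rw [Finset.sum_congr rfl fun i _ => by rw [h4 i]]
        have h5 : (((∑ i, wt B i α * wt B i α : ℤ) : ℝ)) *
          ((∑ j, PF.CC.rt (rootSystem H) α j * PF.CC.rt (rootSystem H) α j : ℤ) : ℝ) = (d : ℝ) := by exact_mod_cast hd α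
        have h6 : (2 : ℝ) * ((∑ i, wt B i β * wt B i α : ℤ) : ℝ) =
            ((∑ i, wt B i α * wt B i α : ℤ) : ℝ) * (PF.CC.rt (rootSystem H) α β : ℝ) := by exact_mod_cast h3
        have h7 : ∑ i, (wt B i α : ℝ) * ((∑ k, PF.CC.rt (rootSystem H) α k * PF.CC.rt (rootSystem H) α k : ℤ) : ℝ) / 2 *
            (wt B i β : ℝ) = ((∑ i, wt B i β * wt B i α : ℤ) : ℝ) *
            (((∑ k, PF.CC.rt (rootSystem H) α k * PF.CC.rt (rootSystem H) α k : ℤ) : ℝ) / 2) := by
          have h8 : ((∑ i, wt B i β * wt B i α : ℤ) : ℝ) = ∑ i, (wt B i β : ℝ) * (wt B i α : ℝ) := by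
            push_cast
            rfl
          rw [h8, Finset.sum_mul]
          refine Finset.sum_congr rfl fun i _ => ?_
          ring
        rw [h7, ← h5]
        linear_combination (((∑ k, PF.CC.rt (rootSystem H) α k * PF.CC.rt (rootSystem H) α k : ℤ) : ℝ) / 4) * h6
      | zero => simp
      | add u v _ _ hu hv =>
        simp only [inner_add_right, add_smul, Finset.sum_add_distrib, smul_add]
        rw [hu, hv]
      | smul k u _ hu =>
        simp only [inner_smul_right, mul_smul]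
        rw [← Finset.smul_sum, hu, smul_comm]
    have h2 : (∑ i, (((innerSL ℝ (vec (wt B i))).toLinearMap.comp U.subtype).smulRight (⟨vec (wt B i), hwU i⟩ : U)) :
        U →ₗ[ℝ] U) = ((d : ℝ) / 4) • LinearMap.id := by
      refine LinearMap.ext fun u => ?_
      apply Subtype.ext
      rw [LinearMap.sum_apply, LinearMap.smul_apply, LinearMap.id_apply, Submodule.coe_sum, Submodule.coe_smul, ← h1 u u.2]
      rfl
    have h3 := congrArg (LinearMap.trace ℝ U) h2
    rw [map_sum, map_smul, LinearMap.trace_id, smul_eq_mul] at h3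
    have h4 : ∑ i, LinearMap.trace ℝ U (((innerSL ℝ (vec (wt B i))).toLinearMap.comp U.subtype).smulRight
        (⟨vec (wt B i), hwU i⟩ : U)) = ((∑ i, ∑ j, wt B i j * wt B i j : ℤ) : ℝ) := by
      rw [Int.cast_sum]
      refine Finset.sum_congr rfl fun i _ => ?_
      rw [LinearMap.trace_smulRight, ← inner_vec]
      rfl
    rw [h4] at h3
    have h5 : 4 * ∑ i, ∑ j, wt B i j * wt B i j = d * (finrank K H : ℤ) := by
      have h6 : ((4 * ∑ i, ∑ j, wt B i j * wt B i j : ℤ) : K) = ((d * (finrank K H : ℤ) : ℤ) : K) := by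
        have h7 : (d : K) * ∑ i, Q (B.w i) (B.w i) = ∑ i, 4 * ((∑ j, wt B i j * wt B i j : ℤ) : K) := by
          rw [Finset.mul_sum]
          exact Finset.sum_congr rfl fun i _ => (hw i).1 (B.w i) (wt B i) (fun β => wt_spec B i β)
        rw [Int.cast_mul d, Int.cast_natCast, ← hQ4, h7, ← Finset.mul_sum]
        push_cast
        rfl
      exact_mod_cast h6
    have h6 : (4 : ℝ) * ((∑ i, ∑ j, wt B i j * wt B i j : ℤ) : ℝ) = (d : ℝ) * (finrank K H : ℝ) := by exact_mod_cast h5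
    have h7 : (d : ℝ) * (finrank ℝ U : ℝ) = (d : ℝ) * (finrank K H : ℝ) := by rw [← h6, h3]; ring
    exact_mod_cast mul_left_cancel₀ hdR.ne' h7
  have hTpos : 0 < T := by
    rcases Nat.eq_zero_or_pos T with h0 | h0
    · exfalso
      rw [h0] at hT
      have h1 : ∀ i, a i = 0 := by
        intro i
        have h2 := (Finset.sum_eq_zero_iff_of_nonneg (fun i _ => sq_nonneg (a i))).1 (by simpa using hT.symm) i (Finset.mem_univ i)
        exact pow_eq_zero_iff (two_ne_zero) |>.1 h2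
      apply hy
      have h2 : (y : L) = 0 := by
        apply hfaith
        intro u
        rw [← B.v.sum_repr u, lie_sum]
        refine Finset.sum_eq_zero fun i _ => ?_
        have h3 : B.w i y = 0 := by
          have h4 := ha i
          rw [h1 i, Int.cast_zero] at h4
          exact (mul_eq_zero.1 h4).resolve_left two_ne_zero
        rw [lie_smul, B.lie_v, h3, zero_smul, smul_zero]
      exact Subtype.ext h2
    · exact h0
  refine ⟨b, t, y', ⟨rs (rootSystem H), hsat, card_Xw B, (mem_Xw B).2 ⟨t, rfl⟩, ?_, fun x hx => norm_le B hsat b htb hdom hx,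
    ?_, ?_, ?_⟩, hTpos, hrank, htb⟩
  · intro h0
    obtain ⟨α⟩ := ‹Nonempty H.root›
    obtain ⟨x, hx, hx0⟩ := exists_ne_zero' B hfaith α
    have h1 := norm_le B hsat b htb hdom hx
    rw [h0, inner_zero_left] at h1
    exact hx0 (inner_self_eq_zero.1 (le_antisymm h1 real_inner_self_nonneg))
  · intro x hx
    obtain ⟨α, rfl⟩ := (mem_Ph _).1 hx
    obtain ⟨k, -, hk⟩ := hyr α
    exact ⟨k, hk⟩
  · rw [hy']
    exact Submodule.smul_mem _ _ (Submodule.sum_mem _ fun i _ => Submodule.smul_mem _ _ (hw i).2.2)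
  · rw [cas_eq b B hdom, ← hm, hrank, hcardPh]
    have h1 : (4 : ℝ) * (m : ℝ) * (Fintype.card I : ℝ) = (d : ℝ) * (finrank K L : ℝ) := by exact_mod_cast hfin
    have h2 : ((Fintype.card H.root + finrank K H : ℕ) : ℝ) = (finrank K L : ℝ) := by rw [hdim]
    push_cast at h2
    rw [add_comm, h2, ← hdy]
    linear_combination (inner ℝ y' y' : ℝ) * h1

end TF
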