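import Pool.Agent.Helper81.TF.Main
import Pool.Agent.Helper81.TF.Lie
import Pool.Agent.Helper81.PF.C10
import Pool.Agent.Helper14.PF.SpFin
import Pool.Agent.Helper90.TF.Adj

/-!
Project TF (MP_b8862a_ag): the core theorem. A simple irreducible Lie algebra of skew endomorphisms which contains an
element with the eigenvalues `2 p - w` of multiplicities `r p` contains all skew endomorphisms, if the fourth power of
the greatest common divisor of the dimension and of the trace of the square is small.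
-/

set_option linter.unusedSectionVars false

open Module LieModule LieAlgebra LieAlgebra.IsKilling AddMonoidAlgebra MTP.MF PF PF.W PF.L
open Pool.Agent.Helper54.MT (semisimple_of_diag exists_cartan_end killing_of)

attribute [local instance 100] LieRing.ofAssociativeRing

namespace TF

/-- The sum of the squares of `2 p - w` with the multiplicities `r p`. -/
def sqT (w : ℤ) (r : ℤ → ℕ) (S : Finset ℤ) : ℕ := ∑ p ∈ S, r p * (2 * p - w).natAbs ^ 2

section gen

variable {K : Type*} [Field K] [CharZero K] [IsAlgClosed K]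
  {L : Type*} [LieRing L] [LieAlgebra K L] [FiniteDimensional K L] [IsKilling K L]
  {H : LieSubalgebra K L} [H.IsCartanSubalgebra]
  {V : Type*} [AddCommGroup V] [Module K V] [FiniteDimensional K V]
  [LieRingModule L V] [LieModule K L V] {I : Type*} [Fintype I]

theorem card_Ph [(rootSystem H).IsIrreducible] : (PF.CC.Ph (rootSystem H)).card = Fintype.card H.root := by
  classical
  unfold PF.CC.Ph
  rw [Finset.card_image_of_injective _ fun α β h => PF.CC.rt_inj (rootSystem H) (PF.CC.vec_inj h), Finset.card_univ]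

theorem rt_le (α β : H.root) : |PF.CC.rt (rootSystem H) α β| ≤ 3 := by
  have h1 := (rootSystem H).pairingIn_pairingIn_mem_set_of_isCrystal_of_isRed α β
  have h2 : PF.CC.rt (rootSystem H) α β = (rootSystem H).pairingIn ℤ α β := rfl
  rw [h2]
  simp only [Set.mem_insert_iff, Set.mem_singleton_iff, Prod.mk.injEq] at h1
  rcases h1 with h | h | h | h | h | h | h | h | h | h | h | h | h <;> rw [h.1] <;> norm_num

theorem toE_w (B : WB (V := V) H I) (i : I) : PF.C.toE (B.w i) = PF.CC.vec (PF.CC.wt B i) := by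
  ext α
  rw [PF.C.toE_apply, PF.CC.vec_apply]
  have h1 := PF.C.iv_spec (PF.C.intl_w B i) α
  rw [PF.CC.wt_spec] at h1
  have h2 : PF.CC.wt B i α = PF.C.iv (B.w i) α := by exact_mod_cast h1
  rw [h2]

theorem XS_eq (B : WB (V := V) H I) : PF.C.XS B = PF.CC.Xw B := by
  ext y
  rw [PF.C.mem_XS, PF.CC.mem_Xw]
  simp only [toE_w]

theorem TypeA_card {E : Type*} [NormedAddCommGroup E] [InnerProductSpace ℝ E] {Φ : Finset E} (h : TypeA Φ) : Φ.card ≤ 2 := by
  classical
  obtain ⟨a, ha⟩ := h
  have h1 : Φ ⊆ {a, -a} := by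
    intro y hy
    rw [Finset.mem_insert, Finset.mem_singleton]
    exact (ha y).1 hy
  exact (Finset.card_le_card h1).trans Finset.card_le_two

/-- The dimension of an eigenspace of a diagonal endomorphism. -/
theorem finrank_eig_diag {J : Type*} [Fintype J] (v : Basis J K V) (h : Module.End K V) (a : J → K)
    (ha : ∀ i, h (v i) = a i • v i) (c : K) [DecidablePred fun i => a i = c] :
    finrank K (Module.End.eigenspace h c) = (Finset.univ.filter fun i => a i = c).card := by
  have h1 : Module.End.eigenspace h c = Submodule.span K (Set.range fun i : {i // a i = c} => v i) := by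
    apply le_antisymm
    · intro u hu
      rw [Module.End.mem_eigenspace_iff] at hu
      rw [← v.sum_repr u]
      refine Submodule.sum_mem _ fun i _ => ?_
      by_cases h0 : v.repr u i = 0
      · rw [h0, zero_smul]
        exact zero_mem _
      · refine Submodule.smul_mem _ _ (Submodule.subset_span ⟨⟨i, ?_⟩, rfl⟩)
        have h2 : v.repr (h u) i = a i * v.repr u i := by
          conv_lhs => rw [← v.sum_repr u]
          rw [map_sum, map_sum, Finsupp.finsetSum_apply]
          rw [Finset.sum_eq_single i]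
          · rw [map_smul, ha, map_smul, map_smul, v.repr_self, Finsupp.smul_apply, Finsupp.smul_apply,
              Finsupp.single_eq_same, smul_eq_mul, smul_eq_mul, mul_one, mul_comm]
          · intro j _ hj
            rw [map_smul, ha, map_smul, map_smul, v.repr_self, Finsupp.smul_apply, Finsupp.smul_apply,
              Finsupp.single_eq_of_ne (Ne.symm hj), smul_zero, smul_zero]
          · intro hi
            exact absurd (Finset.mem_univ i) hi
        rw [hu, map_smul, Finsupp.smul_apply, smul_eq_mul] at h2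
        exact (mul_right_cancel₀ h0 h2).symm
    · rw [Submodule.span_le]
      rintro _ ⟨⟨i, hi⟩, rfl⟩
      change v i ∈ Module.End.eigenspace h c
      rw [Module.End.mem_eigenspace_iff, ha, hi]
  have h2 := finrank_span_eq_card (v.linearIndependent.comp (Subtype.val : {i // a i = c} → J) Subtype.val_injective)
  rw [h1, ← Fintype.card_subtype]
  exact h2

end gen

theorem core_gen.{u, v} : ∃ C : ℕ, 2 ≤ C ∧ ∀ {K : Type v} [Field K] [CharZero K] [IsAlgClosed K] {V : Type u} [AddCommGroup V]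
    [Module K V] [FiniteDimensional K V] {ω : LinearMap.BilinForm K V}, (ω.IsSymm ∨ ω.IsAlt) → ω.Nondegenerate →
    ∀ {L : LieSubalgebra K (Module.End K V)}, IsSimple K L →
    (∀ W : Submodule K V, (∀ x ∈ L, ∀ u ∈ W, x u ∈ W) → W = ⊥ ∨ W = ⊤) →
    (∀ x ∈ L, ∀ u v, ω (x u) v = -ω u (x v)) →
    ∀ h ∈ L, ∀ (w : ℤ) (r : ℤ → ℕ) (S : Finset ℤ),
    (⨆ p ∈ S, Module.End.eigenspace h ((2 * p - w : ℤ) : K)) = ⊤ →
    (∀ p ∈ S, finrank K (Module.End.eigenspace h ((2 * p - w : ℤ) : K)) = r p) →
    C * Nat.gcd (finrank K V) (sqT w r S) ^ 4 ≤ finrank K V →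
    ¬ IsSquare (finrank K V + 1) → ¬ IsSquare (8 * finrank K V + 1) →
    ∀ x : Module.End K V, (∀ u v, ω (x u) v = -ω u (x v)) → x ∈ L := by
  classical
  obtain ⟨C, hC, heu⟩ := euclid.{max u v}
  refine ⟨C + 1, by omega, ?_⟩
  intro K _ _ _ V _ _ _ ω hω hnd L hsimp hirr hsk h hh w r S hsup hr hg hsq1 hsq2 x hx
  have hVn : Nontrivial V := by
    by_contra hcon
    rw [not_nontrivial_iff_subsingleton] at hcon
    apply LieAlgebra.IsSimple.non_abelian K (L := L)
    refine ⟨fun x y => Subtype.ext ?_⟩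
    exact Subsingleton.elim _ _
  have hn0 : 0 < finrank K V := finrank_pos
  have hS : MTP.IrrSymp ω L.toSubmodule := ⟨fun x hx y hy => L.lie_mem hx hy, fun x hx => hsk x hx, hirr⟩
  have hk : IsKilling K L := killing_of hnd hS
  have hdiag : (⨆ c : K, Module.End.eigenspace h c) = ⊤ := by
    rw [eq_top_iff, ← hsup]
    exact iSup₂_le fun p _ => le_iSup (fun c : K => Module.End.eigenspace h c) ((2 * p - w : ℤ) : K)
  obtain ⟨H, hH, hyH⟩ := exists_cartan_end (L := L) ⟨h, hh⟩ (semisimple_of_diag hdiag)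
  have hirrR : (rootSystem H).IsIrreducible := inferInstance
  have hne : Nonempty H.root := by
    by_contra hcon
    rw [not_nonempty_iff] at hcon
    have hN : Nontrivial H := RootPairing.IsIrreducible.nontrivial' (rootSystem H)
    have h1 : (⊤ : Submodule K H) = ⊥ := by
      have h2 : (rootSystem H).corootSpan K = ⊤ := RootPairing.IsRootSystem.span_coroot_eq_top
      rw [← h2, RootPairing.corootSpan, Set.range_eq_empty, Submodule.span_empty]
    exact bot_ne_top h1.symm
  have hirr' : ∀ W : Submodule K V, (∀ x : L, ∀ u ∈ W, ⁅x, u⁆ ∈ W) → W = ⊥ ∨ W = ⊤ :=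
    fun W hW => hirr W fun z hz w hw => hW ⟨z, hz⟩ w hw
  have hsk' : ∀ (x : L) (u v : V), ω ⁅x, u⁆ v = - ω u ⁅x, v⁆ := by
    intro x u v
    exact hsk x x.2 u v
  have hfaith : ∀ x : L, (∀ u : V, ⁅x, u⁆ = 0) → x = 0 := by
    intro x hx
    apply Subtype.ext
    ext u
    exact hx u
  obtain ⟨m, ⟨B⟩⟩ := exists_WB (V := V) (H := H) hirr'
  have hcard : Fintype.card (Fin m) = finrank K V := by
    rw [Module.finrank_eq_card_basis B.v]
  have hI : Nonempty (Fin m) := by
    rw [← Fintype.card_pos_iff, hcard]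
    exact finrank_pos
  obtain ⟨y', hy'⟩ : ∃ y' : H, y' = ⟨⟨h, hh⟩, hyH⟩ := ⟨_, rfl⟩
  have hact : ∀ i, h (B.v i) = B.w i y' • B.v i := by
    intro i
    have h1 := B.lie_v i y'
    rw [hy'] at h1 ⊢
    exact h1
  -- the eigenvalues
  have hex : ∀ i, ∃ q ∈ S, B.w i y' = ((2 * q - w : ℤ) : K) := by
    intro i
    by_contra! hcon
    have h1 := Module.End.eigenspaces_iSupIndep h (B.w i y')
    have h2 : (⊤ : Submodule K V) ≤ ⨆ j, ⨆ (_ : j ≠ B.w i y'), Module.End.eigenspace h j := by
      rw [← hsup]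
      exact iSup₂_le fun p hp => le_iSup₂ (f := fun (j : K) (_ : j ≠ B.w i y') => Module.End.eigenspace h j)
        ((2 * p - w : ℤ) : K) (hcon p hp).symm
    rw [top_le_iff] at h2
    rw [h2, disjoint_top] at h1
    have h3 : B.v i ∈ Module.End.eigenspace h (B.w i y') := by
      rw [Module.End.mem_eigenspace_iff]
      exact hact i
    rw [h1, Submodule.mem_bot] at h3
    exact B.v.ne_zero i h3
  choose q hqS hq using hex
  have hT : ((sqT w r S : ℕ) : ℤ) = ∑ i, (2 * q i - w) ^ 2 := by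
    unfold sqT
    push_cast
    rw [← Finset.sum_fiberwise_of_maps_to (s := Finset.univ) (t := S) (g := q) (fun i _ => hqS i)]
    refine Finset.sum_congr rfl fun p hp => ?_
    have h1 : r p = (Finset.univ.filter fun i => q i = p).card := by
      rw [← hr p hp, finrank_eig_diag B.v h (fun i => B.w i y') hact]
      congr 1
      ext i
      rw [Finset.mem_filter, Finset.mem_filter, hq i]
      constructor
      · rintro ⟨-, h2⟩
        refine ⟨Finset.mem_univ _, ?_⟩
        have h3 : 2 * q i - w = 2 * p - w := by exact_mod_cast h2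
        omega
      · rintro ⟨-, h2⟩
        rw [h2]
        exact ⟨Finset.mem_univ _, rfl⟩
    have h2 : ∑ i with q i = p, (2 * q i - w) ^ 2 = ∑ i with q i = p, (2 * p - w) ^ 2 := by
      refine Finset.sum_congr rfl fun i hi => ?_
      rw [(Finset.mem_filter.1 hi).2]
    rw [h2, Finset.sum_const, nsmul_eq_mul, ← h1, sq_abs]
  obtain ⟨T, hTdef⟩ : ∃ T, T = sqT w r S := ⟨_, rfl⟩
  rw [← hTdef] at hT hg
  obtain ⟨g, hgd⟩ : ∃ g, g = Nat.gcd (finrank K V) T := ⟨_, rfl⟩
  have hg1 : 1 ≤ g := by rw [hgd]; exact Nat.gcd_pos_of_pos_left _ hn0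
  have hgC : C * g ^ 4 ≤ finrank K V := by
    rw [← hgd] at hg
    have : C * g ^ 4 ≤ (C + 1) * g ^ 4 := Nat.mul_le_mul_right _ (by omega)
    omega
  have hy0 : y' ≠ 0 := by
    intro h0
    have h1 : T = 0 := by
      have h2 : (T : ℤ) = 0 := by
        rw [hT]
        refine Finset.sum_eq_zero fun i _ => ?_
        have h3 := hq i
        rw [h0, map_zero] at h3
        have h4 : 2 * q i - w = 0 := by exact_mod_cast h3.symm
        rw [h4]
        norm_num
      exact_mod_cast h2
    rw [h1, Nat.gcd_zero_right] at hg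
    have h2 : finrank K V ≤ finrank K V ^ 4 := Nat.le_self_pow (by norm_num) _
    have h3 : 2 * finrank K V ^ 4 ≤ (C + 1) * finrank K V ^ 4 := Nat.mul_le_mul_right _ (by omega)
    omega
  have hy2 : (2 : K)⁻¹ • y' ≠ 0 := smul_ne_zero (inv_ne_zero two_ne_zero) hy0
  obtain ⟨b, t, z, hin, hTpos, hrank, htb⟩ := exists_in B hirr' hfaith hnd hsk' hy2 (fun i => 2 * q i - w) (by
    intro i
    rw [map_smul, smul_eq_mul, ← mul_assoc, mul_inv_cancel₀ two_ne_zero, one_mul, hq i])
    (by
      intro i j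
      exact ⟨q i - q j, by ring⟩) hT
  rw [hcard] at hin
  obtain ⟨h3, hcases⟩ := heu H.root _ _ _ _ _ _ hin (by
      intro a ha
      obtain ⟨α, rfl⟩ := (PF.CC.mem_Ph _).1 ha
      exact ⟨_, rfl, rt_le α⟩) ⟨_, rfl⟩ (by rw [card_Ph, Fintype.card_coe]) hTpos hn0 (by rw [← hgd]; exact hgC)
  have hBD : TypeB (PF.CC.Ph (rootSystem H)) (PF.CC.Xw B) ∨ TypeD (PF.CC.Ph (rootSystem H)) (PF.CC.Xw B) → x ∈ L := by
    intro hBD
    rcases hω with hsymm | halt
    · rcases PF.CC.choose_le B hirr' hnd hsk' hBD with h2 | h2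
      · exact absurd (TypeA_card h2) (by omega)
      · rw [hcard] at h2
        exact PF.CC.full_of_le hsymm hnd L.toSubmodule (fun z hz => hsk z hz) h2 x hx
    · rcases hBD with ht | ht
      · exfalso
        obtain ⟨N, y, hy, c, hc, hX, -⟩ := ht
        obtain ⟨i, hi⟩ := (PF.CC.mem_Xw B).1 ((hX 0).2 (Or.inl rfl))
        have h0 : B.w i = 0 := by
          apply PF.C.toE_inj (PF.C.intl_w B i) PF.C.intl_zero
          rw [toE_w, hi, PF.C.toE_zero]
        obtain ⟨b⟩ := RootPairing.nonempty_base (rootSystem H)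
        obtain ⟨d, hd, hdodd⟩ := odd_rho B hirr' hnd halt hsk' b
        have h1 := hd i
        rw [h0, LinearMap.zero_apply] at h1
        have h2 : d i = 0 := by exact_mod_cast h1.symm
        have h3 := hdodd i
        rw [h2] at h3
        exact absurd h3 (by decide)
      · rw [← XS_eq, ← PF.C.PhiS_eq] at ht
        exact PF.C.typeD_sp B hirr' ht hnd halt hsk' hx
  rcases hcases with h4 | h4 | ⟨h4, h5, k, h6⟩
  · exact hBD (Or.inl h4)
  · exact hBD (Or.inr h4)
  · exfalso
    have h7 := card_adj B hirr' hfaith b htb h4 h5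
    have h8 := TF.L.card_root_eq H
    rw [hcard] at h7
    rw [hrank, card_Ph, add_comm (finrank K H), h8, ← h7] at h6
    rcases h6 with h6 | h6
    · exact hsq1 ⟨k, by rw [h6, sq]⟩
    · exact hsq2 ⟨k, by rw [h6, sq]⟩

/-- **The core theorem.** -/
theorem core_lie.{u} : ∃ C : ℕ, 2 ≤ C ∧ ∀ (n : Type u) [Fintype n] (ω : LinearMap.BilinForm ℂ (n → ℂ)),
    (ω.IsSymm ∨ ω.IsAlt) → ω.Nondegenerate → ∀ (L : LieSubalgebra ℂ (Module.End ℂ (n → ℂ))), IsSimple ℂ L →
    (∀ W : Submodule ℂ (n → ℂ), (∀ x ∈ L, ∀ u ∈ W, x u ∈ W) → W = ⊥ ∨ W = ⊤) →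
    (∀ x ∈ L, ∀ u v, ω (x u) v = -ω u (x v)) →
    ∀ h ∈ L, ∀ (w : ℤ) (r : ℤ → ℕ) (S : Finset ℤ),
    (⨆ p ∈ S, Module.End.eigenspace h ((2 * p - w : ℤ) : ℂ)) = ⊤ →
    (∀ p ∈ S, finrank ℂ (Module.End.eigenspace h ((2 * p - w : ℤ) : ℂ)) = r p) →
    C * Nat.gcd (Fintype.card n) (sqT w r S) ^ 4 ≤ Fintype.card n →
    ¬ IsSquare (Fintype.card n + 1) → ¬ IsSquare (8 * Fintype.card n + 1) →
    ∀ x : Module.End ℂ (n → ℂ), (∀ u v, ω (x u) v = -ω u (x v)) → x ∈ L := by
  obtain ⟨C, hC, hcore⟩ := core_gen.{u, 0}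
  refine ⟨C, hC, ?_⟩
  intro n _ ω hω hnd L hsimp hirr hsk h hh w r S hsup hr hg hsq1 hsq2 x hx
  have hcard : finrank ℂ (n → ℂ) = Fintype.card n := Module.finrank_fintype_fun_eq_card ℂ
  exact hcore hω hnd hsimp hirr hsk h hh w r S hsup hr (by rw [hcard]; exact hg) (by rw [hcard]; exact hsq1)
    (by rw [hcard]; exact hsq2) x hx

end TF
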