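import Pool.Agent.Helper27.TF.Defs
import Pool.Agent.Helper81.PF.C1

/-!
Project TF (MP_b8862a_ag): few roots.
-/

set_option linter.unusedSectionVars false

open Module PF

namespace TF

variable {E : Type*} [NormedAddCommGroup E] [InnerProductSpace ℝ E]

/-- The Weyl invariant form is a multiple of the inner product. -/
theorem form {Φ : Finset E} (h : RS Φ) : ∃ D : ℝ, (∀ b ∈ Φ, ∑ a ∈ Φ, (inner ℝ a b : ℝ) * inner ℝ a b = D * inner ℝ b b) ∧
    ∀ u ∈ Submodule.span ℝ (Φ : Set E), ∑ a ∈ Φ, (inner ℝ a u : ℝ) * inner ℝ a u = D * inner ℝ u u := by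
  classical
  have hS : ∀ b ∈ Φ, ∑ a ∈ Φ, (inner ℝ a b : ℝ) • a = ((∑ a ∈ Φ, (inner ℝ a b : ℝ) * inner ℝ a b) / inner ℝ b b) • b := by
    intro b hb
    have hbb := h.inner_pos hb
    have h1 : ∑ a ∈ Φ, (inner ℝ a b : ℝ) • a = ∑ a ∈ Φ, (-(inner ℝ a b : ℝ)) • (a - co b a • b) := by
      have hinv : ∀ a, a - co b a • b - co b (a - co b a • b) • b = a := by
        intro a
        have h2 : co b (a - co b a • b) = - co b a := by
          unfold co
          rw [inner_sub_left, inner_smul_left]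
          simp only [conj_trivial]
          field_simp
          ring
        rw [h2]
        module
      refine Finset.sum_nbij' (fun a => a - co b a • b) (fun a => a - co b a • b) (fun a ha => h.refl b hb a ha)
        (fun a ha => h.refl b hb a ha) (fun a _ => hinv a) (fun a _ => hinv a) ?_
      intro a _
      have h2 : (inner ℝ (a - co b a • b) b : ℝ) = - inner ℝ a b := by
        unfold co
        rw [inner_sub_left, inner_smul_left]
        simp only [conj_trivial]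
        field_simp
        ring
      rw [hinv a, h2, neg_neg]
    have h2 : ∑ a ∈ Φ, (-(inner ℝ a b : ℝ)) • (a - co b a • b) = - ∑ a ∈ Φ, (inner ℝ a b : ℝ) • a +
        (∑ a ∈ Φ, (inner ℝ a b : ℝ) * co b a) • b := by
      rw [Finset.sum_smul, ← Finset.sum_neg_distrib, ← Finset.sum_add_distrib]
      refine Finset.sum_congr rfl fun a _ => ?_
      module
    have h3 : ∑ a ∈ Φ, (inner ℝ a b : ℝ) * co b a = 2 * ((∑ a ∈ Φ, (inner ℝ a b : ℝ) * inner ℝ a b) / inner ℝ b b) := by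
      rw [Finset.sum_div, Finset.mul_sum]
      refine Finset.sum_congr rfl fun a _ => ?_
      unfold co
      ring
    rw [h2, h3] at h1
    have h4 : (2 : ℝ) • ∑ a ∈ Φ, (inner ℝ a b : ℝ) • a =
        (2 : ℝ) • ((∑ a ∈ Φ, (inner ℝ a b : ℝ) * inner ℝ a b) / inner ℝ b b) • b := by
      rw [smul_smul, ← sub_eq_zero]
      rw [← sub_eq_zero] at h1
      rw [← h1]
      module
    exact smul_right_injective E (two_ne_zero' ℝ) h4
  have hc : ∀ b ∈ Φ, ∀ b' ∈ Φ, (inner ℝ b b' : ℝ) ≠ 0 → (∑ a ∈ Φ, (inner ℝ a b : ℝ) * inner ℝ a b) / inner ℝ b b =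
      (∑ a ∈ Φ, (inner ℝ a b' : ℝ) * inner ℝ a b') / inner ℝ b' b' := by
    intro b hb b' hb' hne
    have h1 : (inner ℝ (∑ a ∈ Φ, (inner ℝ a b : ℝ) • a) b' : ℝ) = inner ℝ b (∑ a ∈ Φ, (inner ℝ a b' : ℝ) • a) := by
      rw [sum_inner, inner_sum]
      refine Finset.sum_congr rfl fun a _ => ?_
      rw [inner_smul_left, inner_smul_right, real_inner_comm a b]
      simp only [conj_trivial]
      ring
    rw [hS b hb, hS b' hb', inner_smul_left, inner_smul_right] at h1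
    simp only [conj_trivial] at h1
    exact mul_right_cancel₀ hne h1
  obtain ⟨b0, hb0⟩ := h.nonempty
  obtain ⟨D, hD⟩ : ∃ D : ℝ, D = (∑ a ∈ Φ, (inner ℝ a b0 : ℝ) * inner ℝ a b0) / inner ℝ b0 b0 := ⟨_, rfl⟩
  have hall : ∀ b ∈ Φ, (∑ a ∈ Φ, (inner ℝ a b : ℝ) * inner ℝ a b) / inner ℝ b b = D := by
    have h1 : Φ.filter (fun b => (∑ a ∈ Φ, (inner ℝ a b : ℝ) * inner ℝ a b) / inner ℝ b b = D) = Φ := by
      refine h.irr _ (Finset.filter_subset _ _) ⟨b0, Finset.mem_filter.2 ⟨hb0, hD.symm⟩⟩ ?_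
      intro a ha b hb hbn
      rw [Finset.mem_filter] at ha hbn
      by_contra hne
      exact hbn ⟨hb, by rw [← hc a ha.1 b hb hne, ha.2]⟩
    intro b hb
    rw [← h1, Finset.mem_filter] at hb
    exact hb.2
  refine ⟨D, ?_, ?_⟩
  · intro b hb
    rw [← hall b hb]
    have := h.inner_pos hb
    field_simp
  · intro u hu
    have h1 : ∑ a ∈ Φ, (inner ℝ a u : ℝ) • a = D • u := by
      induction hu using Submodule.span_induction with
      | mem b hb => rw [hS b hb, hall b hb]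
      | zero => simp
      | add x y _ _ hx hy =>
        simp only [inner_add_right, add_smul, Finset.sum_add_distrib, smul_add]
        rw [hx, hy]
      | smul k x _ hx =>
        simp only [inner_smul_right, mul_smul]
        rw [← Finset.smul_sum, hx, smul_comm]
    have h2 : (inner ℝ (∑ a ∈ Φ, (inner ℝ a u : ℝ) • a) u : ℝ) = D * inner ℝ u u := by
      rw [h1, inner_smul_left]
      simp only [conj_trivial]
    rw [← h2, sum_inner]
    refine Finset.sum_congr rfl fun a _ => ?_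
    rw [inner_smul_left]
    simp only [conj_trivial]

theorem few {ι : Type*} [Fintype ι] {Φ X : Finset (EuclideanSpace ℝ ι)} {n T : ℕ} {l y : EuclideanSpace ℝ ι}
    (h : In Φ X n T l y) (hΦ : ∀ a ∈ Φ, ∃ f : ι → ℤ, a = PF.CC.vec f ∧ ∀ i, |f i| ≤ 3)
    (hl : ∃ f : ι → ℤ, l = PF.CC.vec f) (hc : Φ.card = Fintype.card ι) (hT : 0 < T) (hn : 0 < n) :
    n ≤ 1000 * Φ.card ^ 5 * Nat.gcd n T := by
  classical
  obtain ⟨D, hD1, hD2⟩ := form h.rs
  obtain ⟨b, hb⟩ := h.rs.nonempty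
  have hcard : 1 ≤ Φ.card := Finset.card_pos.2 h.rs.nonempty
  have hbb := h.rs.inner_pos hb
  choose! F hF hF3 using hΦ
  obtain ⟨lf, hlf⟩ := hl
  -- integers
  obtain ⟨β, hβ⟩ : ∃ β : ℤ, β = ∑ i, F b i * F b i := ⟨_, rfl⟩
  have hβR : (inner ℝ b b : ℝ) = (β : ℝ) := by
    rw [hβ, ← PF.CC.inner_vec, ← hF b hb]
  have hβ0 : 0 < β := by
    have : (0 : ℝ) < β := by rw [← hβR]; exact hbb
    exact_mod_cast this
  obtain ⟨A, hA⟩ : ∃ A : ℤ, A = ∑ a ∈ Φ, (∑ i, F a i * F b i) * (∑ i, F a i * F b i) := ⟨_, rfl⟩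
  have hAR : ∑ a ∈ Φ, (inner ℝ a b : ℝ) * inner ℝ a b = (A : ℝ) := by
    rw [hA, Int.cast_sum]
    refine Finset.sum_congr rfl fun a ha => ?_
    have h1 : (inner ℝ a b : ℝ) = ((∑ i, F a i * F b i : ℤ) : ℝ) := by
      rw [← PF.CC.inner_vec, ← hF a ha, ← hF b hb]
    rw [h1, Int.cast_mul]
  have hA0 : 0 < A := by
    have h1 : (0 : ℝ) < (A : ℝ) := by
      rw [← hAR]
      refine Finset.sum_pos' (fun a _ => mul_self_nonneg _) ⟨b, hb, mul_pos hbb hbb⟩
    exact_mod_cast h1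
  have hAle : A ≤ 81 * (Φ.card : ℤ) ^ 3 := by
    have h1 : ∀ a ∈ Φ, (∑ i, F a i * F b i) * (∑ i, F a i * F b i) ≤ (9 * (Φ.card : ℤ)) ^ 2 := by
      intro a ha
      have h2 : |∑ i, F a i * F b i| ≤ 9 * (Φ.card : ℤ) := by
        refine (Finset.abs_sum_le_sum_abs _ _).trans ?_
        have h3 : ∑ i : ι, |F a i * F b i| ≤ ∑ _i : ι, (9 : ℤ) := by
          refine Finset.sum_le_sum fun i _ => ?_
          rw [abs_mul]
          have h4 := hF3 a ha i
          have h5 := hF3 b hb i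
          nlinarith [abs_nonneg (F a i), abs_nonneg (F b i)]
        refine h3.trans ?_
        rw [Finset.sum_const, Finset.card_univ, hc, nsmul_eq_mul, mul_comm]
      rw [← abs_mul_abs_self, ← sq]
      exact pow_le_pow_left₀ (abs_nonneg _) h2 2
    rw [hA]
    refine (Finset.sum_le_sum h1).trans ?_
    rw [Finset.sum_const, nsmul_eq_mul]
    ring_nf
    rfl
  choose! k hk using h.lev
  obtain ⟨Y, hY⟩ : ∃ Y : ℤ, Y = ∑ a ∈ Φ, k a * k a := ⟨_, rfl⟩
  have hYR : ∑ a ∈ Φ, (inner ℝ a y : ℝ) * inner ℝ a y = (Y : ℝ) := by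
    rw [hY, Int.cast_sum]
    refine Finset.sum_congr rfl fun a ha => ?_
    rw [hk a ha, Int.cast_mul]
  obtain ⟨κ, hκ⟩ : ∃ κ : ℤ, κ = 2 * (∑ i, lf i * lf i) + ∑ a ∈ Φ, |∑ i, lf i * F a i| := ⟨_, rfl⟩
  have hκR : 2 * cas Φ l = (κ : ℝ) := by
    unfold cas
    rw [hκ, hlf, PF.CC.inner_vec]
    have h1 : ∑ a ∈ Φ, |(inner ℝ (PF.CC.vec lf) a : ℝ)| = ((∑ a ∈ Φ, |∑ i, lf i * F a i| : ℤ) : ℝ) := by
      rw [Int.cast_sum]
      refine Finset.sum_congr rfl fun a ha => ?_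
      rw [Int.cast_abs, ← PF.CC.inner_vec, ← hF a ha]
    rw [h1]
    push_cast
    ring
  obtain ⟨s, hs⟩ : ∃ s : ℕ, s = finrank ℝ (Submodule.span ℝ (Φ : Set (EuclideanSpace ℝ ι))) + Φ.card := ⟨_, rfl⟩
  have hs2 : s ≤ 2 * Φ.card := by
    have h1 : finrank ℝ (Submodule.span ℝ (Φ : Set (EuclideanSpace ℝ ι))) ≤ Φ.card := finrank_span_finset_le_card Φ
    omega
  have hs0 : 0 < s := by omega
  have hid := h.idt
  have h1 := hD1 b hb
  have h2 := hD2 y h.y_mem
  rw [hAR, hβR] at h1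
  rw [hYR] at h2
  -- A (y, y) = β Y
  have h3 : (A : ℝ) * inner ℝ y y = β * Y := by
    rw [h1, h2]
    ring
  have h4 : (2 : ℝ) * n * κ * (β * Y) = T * s * A := by
    have h5 : (s : ℝ) = finrank ℝ (Submodule.span ℝ (Φ : Set (EuclideanSpace ℝ ι))) + (Φ.card : ℝ) := by
      rw [hs]
      push_cast
      rfl
    rw [← h3, ← hκR, h5]
    linear_combination (A : ℝ) * hid
  have h5 : 2 * (n : ℤ) * κ * (β * Y) = T * s * A := by exact_mod_cast h4
  obtain ⟨A', hA'⟩ := Int.eq_ofNat_of_zero_le hA0.le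
  have h6 : n ∣ T * s * A' := by
    have h7 : (n : ℤ) ∣ ((T * s * A' : ℕ) : ℤ) := by
      push_cast
      rw [← hA', ← h5]
      exact ⟨2 * κ * (β * Y), by ring⟩
    exact_mod_cast h7
  have h7 : n ∣ Nat.gcd n T * (s * A') := by
    have h8 : n ∣ Nat.gcd (n * (s * A')) (T * (s * A')) := Nat.dvd_gcd (dvd_mul_right _ _) (by rw [← mul_assoc]; exact h6)
    rwa [Nat.gcd_mul_right] at h8
  have hg : 0 < Nat.gcd n T := Nat.gcd_pos_of_pos_left _ hn
  have hA'0 : 0 < A' := by omega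
  have h8 := Nat.le_of_dvd (Nat.mul_pos hg (Nat.mul_pos hs0 hA'0)) h7
  have h9 : A' ≤ 81 * Φ.card ^ 3 := by
    rw [hA'] at hAle
    exact_mod_cast hAle
  calc n ≤ Nat.gcd n T * (s * A') := h8
    _ ≤ Nat.gcd n T * ((2 * Φ.card) * (81 * Φ.card ^ 3)) := Nat.mul_le_mul_left _ (Nat.mul_le_mul hs2 h9)
    _ = 162 * Φ.card ^ 4 * Nat.gcd n T := by ring
    _ ≤ 1000 * Φ.card ^ 5 * Nat.gcd n T := by
      refine Nat.mul_le_mul_right _ ?_
      have : Φ.card ^ 4 ≤ Φ.card ^ 5 := Nat.pow_le_pow_right hcard (by norm_num)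
      omega

end TF
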