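import Pool.Agent.Helper81.TF.Sc
import Pool.Agent.Helper81.TF.Few
import Pool.Agent.Helper27.TF.Cls
import Pool.Agent.Helper21.TF.Long

/-!
Project TF (MP_b8862a_ag): the Euclidean theorem.
-/

set_option linter.unusedSectionVars false

open Module PF

namespace TF

/-- the squares -/
theorem num {E : Type*} [NormedAddCommGroup E] [InnerProductSpace ℝ E] {Φ : Finset E} {m : ℕ} (hm : 9 ≤ m) :
    (∀ (e : Fin m → E) (c : ℝ) (d : ℕ), Fr Φ m e c d →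
      ∃ k : ℕ, 8 * (finrank ℝ (Submodule.span ℝ (Φ : Set E)) + Φ.card) + 1 = k ^ 2) ∧
    (∀ u : Fin m → E, FrA Φ m u → ∃ k : ℕ, finrank ℝ (Submodule.span ℝ (Φ : Set E)) + Φ.card + 1 = k ^ 2) := by
  obtain ⟨k, rfl⟩ : ∃ k, m = k + 1 := ⟨m - 1, by omega⟩
  refine ⟨fun e c d h => ?_, fun u h => ?_⟩
  · have h1 := h.card
    rw [h.finrank (by omega)]
    by_cases hd : d = 0
    · rw [if_pos hd] at h1
      have h2 : Φ.card = 2 * (k + 1) * k := by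
        have h3 : (Φ.card : ℝ) = ((2 * (k + 1) * k : ℕ) : ℝ) := by
          rw [h1]
          push_cast
          ring
        exact_mod_cast h3
      refine ⟨4 * k + 3, ?_⟩
      rw [h2]
      ring
    · rw [if_neg hd] at h1
      have h2 : Φ.card = 2 * (k + 1) * (k + 1) := by
        have h3 : (Φ.card : ℝ) = ((2 * (k + 1) * (k + 1) : ℕ) : ℝ) := by
          rw [h1]
          push_cast
          ring
        exact_mod_cast h3
      refine ⟨4 * k + 5, ?_⟩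
      rw [h2]
      ring
  · have h1 := h.card
    rw [h.finrank (by omega)]
    have h2 : Φ.card = (k + 1) * k := by
      have h3 : (Φ.card : ℝ) = (((k + 1) * k : ℕ) : ℝ) := by
        rw [h1]
        push_cast
        ring
      exact_mod_cast h3
    refine ⟨k + 1, ?_⟩
    rw [h2, Nat.add_sub_cancel]
    ring

theorem euclid.{u} : ∃ C : ℕ, 0 < C ∧ ∀ (ι : Type u) [Fintype ι] (Φ X : Finset (EuclideanSpace ℝ ι)) (n T : ℕ)
    (l y : EuclideanSpace ℝ ι), In Φ X n T l y →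
    (∀ a ∈ Φ, ∃ f : ι → ℤ, a = PF.CC.vec f ∧ ∀ i, |f i| ≤ 3) → (∃ f : ι → ℤ, l = PF.CC.vec f) →
    Φ.card = Fintype.card ι → 0 < T → 0 < n →
    C * Nat.gcd n T ^ 4 ≤ n → 3 ≤ Φ.card ∧ (TypeB Φ X ∨ TypeD Φ X ∨ Adj Φ l) := by
  obtain ⟨M, hM⟩ := classical.{u} 9
  refine ⟨1000 * M ^ 5 + 2000000 + 1, by positivity, ?_⟩
  intro ι _ Φ X n T l y h hΦ hl hc hT hn hg
  have hg0 : 1 ≤ Nat.gcd n T := Nat.gcd_pos_of_pos_left _ hn
  have hp1 : Nat.gcd n T ≤ Nat.gcd n T ^ 4 := Nat.le_self_pow (by norm_num) _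
  have hp3 : Nat.gcd n T ^ 3 ≤ Nat.gcd n T ^ 4 := Nat.pow_le_pow_right hg0 (by norm_num)
  have hfew := few h hΦ hl hc hT hn
  obtain ⟨g, hgd⟩ : ∃ g, g = Nat.gcd n T := ⟨_, rfl⟩
  rw [← hgd] at hg hg0 hp1 hp3 hfew
  have hg4 : 1 ≤ g ^ 4 := Nat.one_le_pow _ _ hg0
  have hbig : ∀ K : ℕ, K + 1 ≤ 1000 * M ^ 5 + 2000000 + 1 → ¬ n ≤ K * g ^ 4 := by
    intro K hK hle
    have h1 : (K + 1) * g ^ 4 ≤ n := (Nat.mul_le_mul_right _ hK).trans hg
    rw [add_mul, one_mul] at h1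
    omega
  have hMc : M ≤ Φ.card := by
    by_contra hlt
    push Not at hlt
    have h1 : Φ.card ^ 5 ≤ M ^ 5 := Nat.pow_le_pow_left hlt.le 5
    have h2 : 1000 * Φ.card ^ 5 * g ≤ 1000 * M ^ 5 * g ^ 4 := Nat.mul_le_mul (by omega) hp1
    exact hbig _ (by omega) (hfew.trans h2)
  have h3c : 3 ≤ Φ.card := by
    by_contra hlt
    push Not at hlt
    have h1 : Φ.card ^ 5 ≤ 2 ^ 5 := Nat.pow_le_pow_left (by omega) 5
    have h2 : 1000 * Φ.card ^ 5 * g ≤ 32000 * g ^ 4 := Nat.mul_le_mul (by omega) hp1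
    exact hbig _ (by omega) (hfew.trans h2)
  refine ⟨h3c, ?_⟩
  obtain ⟨c, hc0, hNRS⟩ := exists_NRS h.rs
  obtain ⟨m, hm, hcase⟩ := hM (PF.sc c Φ) hNRS (by rw [card_sc hc0]; exact hMc)
  have hIn := h.sc hc0
  rcases hIn.cls hm hcase with h1 | h1 | h1 | ⟨h1, h2⟩
  · exfalso
    rw [← hgd] at h1
    exact hbig _ (by omega) h1
  · exact Or.inl (h1.of_sc hc0)
  · exact Or.inr (Or.inl (h1.of_sc hc0))
  · rcases hcase with ⟨u, hu⟩ | ⟨e, c', d, he⟩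
    · obtain ⟨k, hk⟩ := (num hm).2 u hu
      exact Or.inr (Or.inr (Adj.of_sc hc0 ⟨h1, h2, k, Or.inl hk⟩))
    · obtain ⟨k, hk⟩ := (num hm).1 e c' d he
      exact Or.inr (Or.inr (Adj.of_sc hc0 ⟨h1, h2, k, Or.inr hk⟩))

end TF
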