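import Pool.Agent.Helper27.TF.Defs
import Pool.Agent.Helper3.PF.Comb

/-!
Project TF (MP_b8862a_ag): the numerical data and scaling.
-/

set_option linter.unusedSectionVars false

open Module PF

namespace TF

variable {E : Type*} [NormedAddCommGroup E] [InnerProductSpace ℝ E]

/-- The highest weight is a root of maximal length and the dimension of the Lie algebra is that of a classical one. -/
def Adj (Φ : Finset E) (l : E) : Prop :=
  l ∈ Φ ∧ (∀ a ∈ Φ, (inner ℝ a a : ℝ) ≤ inner ℝ l l) ∧
    ∃ k : ℕ, finrank ℝ (Submodule.span ℝ (Φ : Set E)) + Φ.card + 1 = k ^ 2 ∨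
      8 * (finrank ℝ (Submodule.span ℝ (Φ : Set E)) + Φ.card) + 1 = k ^ 2

section sc

variable {Φ X : Finset E} {c : ℝ} (hc : 0 < c)

include hc

theorem span_sc : Submodule.span ℝ ((PF.sc c Φ : Finset E) : Set E) = Submodule.span ℝ (Φ : Set E) := by
  apply le_antisymm
  · rw [Submodule.span_le]
    intro x hx
    obtain ⟨y, hy, rfl⟩ := mem_sc.1 (Finset.mem_coe.1 hx)
    exact Submodule.smul_mem _ _ (Submodule.subset_span (Finset.mem_coe.2 hy))
  · rw [Submodule.span_le]
    intro x hx
    have h1 : x = c⁻¹ • (c • x) := by rw [smul_smul, inv_mul_cancel₀ hc.ne', one_smul]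
    rw [SetLike.mem_coe, h1]
    refine Submodule.smul_mem _ _ (Submodule.subset_span (Finset.mem_coe.2 ?_))
    exact (smul_mem_sc hc).2 (Finset.mem_coe.1 hx)

theorem cas_sc (l : E) : cas (PF.sc c Φ) (c • l) = c ^ 2 * cas Φ l := by
  classical
  unfold cas
  rw [PF.sc, Finset.sum_image (fun x _ y _ h => smul_inj' hc h), inner_smul_left, inner_smul_right]
  simp only [conj_trivial]
  have h1 : ∀ a ∈ Φ, |(inner ℝ (c • l) (c • a) : ℝ)| = c ^ 2 * |(inner ℝ l a : ℝ)| := by
    intro a _
    rw [inner_smul_left, inner_smul_right]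
    simp only [conj_trivial]
    rw [← mul_assoc, abs_mul, abs_of_pos (mul_pos hc hc)]
    ring
  rw [Finset.sum_congr rfl h1, ← Finset.mul_sum]
  ring

theorem In.sc {n T : ℕ} {l y : E} (h : In Φ X n T l y) : In (PF.sc c Φ) (PF.sc c X) n T (c • l) (c⁻¹ • y) where
  rs := h.rs.sc hc
  sat := h.sat.sc hc
  card_le := by rw [card_sc hc]; exact h.card_le
  l_mem := (smul_mem_sc hc).2 h.l_mem
  l_ne := smul_ne_zero hc.ne' h.l_ne
  l_max := by
    intro x hx
    obtain ⟨x', hx', rfl⟩ := mem_sc.1 hx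
    rw [inner_smul_left, inner_smul_right, inner_smul_left, inner_smul_right]
    simp only [conj_trivial]
    rw [← mul_assoc, ← mul_assoc]
    exact mul_le_mul_of_nonneg_left (h.l_max x' hx') (mul_pos hc hc).le
  lev := by
    intro a ha
    obtain ⟨a', ha', rfl⟩ := mem_sc.1 ha
    obtain ⟨k, hk⟩ := h.lev a' ha'
    refine ⟨k, ?_⟩
    rw [inner_smul_left, inner_smul_right]
    simp only [conj_trivial]
    rw [← mul_assoc, mul_inv_cancel₀ hc.ne', one_mul, hk]
  y_mem := by
    rw [span_sc hc]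
    exact Submodule.smul_mem _ _ h.y_mem
  idt := by
    rw [cas_sc hc, span_sc hc, card_sc hc, ← h.idt, inner_smul_left, inner_smul_right]
    simp only [conj_trivial]
    have := hc.ne'
    field_simp

theorem Adj.of_sc {l : E} (h : Adj (PF.sc c Φ) (c • l)) : Adj Φ l := by
  obtain ⟨h1, h2, k, h3⟩ := h
  rw [span_sc hc, card_sc hc] at h3
  refine ⟨(smul_mem_sc hc).1 h1, ?_, k, h3⟩
  intro a ha
  have h4 := h2 (c • a) ((smul_mem_sc hc).2 ha)
  rw [inner_smul_left, inner_smul_right, inner_smul_left, inner_smul_right] at h4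
  simp only [conj_trivial] at h4
  rw [← mul_assoc, ← mul_assoc] at h4
  exact le_of_mul_le_mul_left h4 (mul_pos hc hc)

end sc

end TF
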